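import Pool.Agent.Helper24.FF.Stmts

/-! Full list for MP_866009_co, part F, module RP: a path that ends with a vertex adjacent to
exactly one hub, the rest being adjacent to both or to none. -/

set_option autoImplicit false

namespace Pool.Agent.Helper24.FF

open Pool.Agent.Helper64.CT Pool.Agent.Helper64.DT Pool.Agent.Helper64.FL
open Pool.Agent.Helper64.HG (Ovl Model Circ IC HellyCircle ChordModel)

theorem rp_init {V : Type} {G : SimpleGraph V} {w : V} : ∀ (A : List V), IPt G (A ++ [w]) →
    IPt G A
  | [], _ => trivial
  | a :: A, h => by
    obtain ⟨h1, h2, h3, h4⟩ := h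
    refine ⟨fun x hx => h1 x (by simp [hx]), ?_, ?_, rp_init A h4⟩
    · intro b hb
      cases A with
      | nil => simp at hb
      | cons c A => exact h2 b (by simpa using hb)
    · intro x hx
      cases A with
      | nil => simp at hx
      | cons c A => exact h3 x (by
          have : x ∈ A := by simpa using hx
          simp [this])

theorem rp_last {V : Type} {G : SimpleGraph V} {w : V} : ∀ (A : List V), IPt G (A ++ [w]) →
    ∀ z ∈ A, (w ≠ z ∧ (G.Adj w z ↔ A.getLast? = some z))
  | [], _ => by simp
  | a :: A, h => by
    obtain ⟨h1, h2, h3, h4⟩ := h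
    intro z hz
    have haA : ∀ y ∈ A, a ≠ y := fun y hy => h1 y (by simp [hy])
    have haw : a ≠ w := h1 w (by simp)
    cases A with
    | nil =>
      have hz' : z = a := by simpa using hz
      subst hz'
      have := h2 w (by simp)
      exact ⟨haw.symm, ⟨fun _ => by simp, fun _ => this.symm⟩⟩
    | cons c A =>
      by_cases hza : z = a
      · subst hza
        refine ⟨haw.symm, ⟨fun hh => absurd hh.symm (h3 w (by simp)), ?_⟩⟩
        intro hh
        exfalso
        have : z ∈ c :: A := by
          have := List.mem_of_getLast? (l := c :: A) (a := z) (by simpa using hh)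
          exact this
        exact haA z this rfl
      · have hz' : z ∈ c :: A := by
          rcases List.mem_cons.1 hz with hh | hh
          · exact absurd hh hza
          · exact hh
        have := rp_last (c :: A) h4 z hz'
        refine ⟨this.1, ?_⟩
        rw [this.2]
        simp

theorem rp_rungs {V : Type} (G : SimpleGraph V) (h k : V) (N : List V) :
    rungs G k h N = rungs G h k N := by
  unfold rungs
  congr 1
  apply List.filter_congr
  intro x _
  simp only [decide_eq_decide]
  exact And.comm

open Classical in
theorem st_RP (hRUN : ST_RUN) (hM3 : ST_M3) (hM4 : ST_M4) (hM5 : ST_M5) (hM6 : ST_M6)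
    (hM7 : ST_M7) : ST_RP := by
  intro V G S h k N hE hI hN hNS hadj hbal hlast
  rcases List.eq_nil_or_concat N with hnil | ⟨A, w, rfl⟩
  · exact absurd hnil hN
  have hw : (G.Adj h w ↔ ¬ G.Adj k w) := hlast w (by simp)
  have hEs : E2 G S k h := (hM7 V G S h k).2.1 hE
  obtain ⟨hhS, hkS, hhk, -⟩ := id hE
  cases A with
  | nil =>
    have hset : S ∪ LS ([].concat w) = insert w S := by
      ext y
      simp [LS, or_comm]
    rw [hset]
    have hwS : w ∉ S := hNS w (by simp)
    by_cases hhw : G.Adj h w
    · refine hM6 V G S h k w hE hwS ?_
      intro y hy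
      constructor
      · intro hadj'
        by_contra hne
        by_cases hyk : y = k
        · subst hyk
          exact (hw.1 hhw) hadj'.symm
        · exact hadj w (by simp) y hy hne hyk hadj'
      · rintro rfl
        exact hhw.symm
    · have hkw : G.Adj k w := by
        by_contra hc
        exact hhw (hw.2 hc)
      refine hM6 V G S k h w hEs hwS ?_
      intro y hy
      constructor
      · intro hadj'
        by_contra hne
        by_cases hyk : y = h
        · subst hyk
          exact hhw hadj'.symm
        · exact hadj w (by simp) y hy hyk hne hadj'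
      · rintro rfl
        exact hkw.symm
  | cons x A =>
    have hI' : IPt G ((x :: A) ++ [w]) := by simpa using hI
    have hIA : IPt G (x :: A) := rp_init (x :: A) hI'
    have hL := rp_last (x :: A) hI'
    have hmem : ∀ z ∈ x :: A, z ∈ (x :: A).concat w := by
      intro z hz
      simp only [List.concat_eq_append, List.mem_append]
      exact Or.inl hz
    have hne : ∀ z ∈ x :: A, ((x :: A).concat w).getLast? ≠ some z := by
      intro z hz hh
      rw [List.concat_eq_append, List.getLast?_append_of_ne_nil _ (by simp)] at hh
      have : w = z := by simpa using hh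
      exact (hL z hz).1 this
    have hb : ∀ z ∈ x :: A, (G.Adj h z ↔ G.Adj k z) := fun z hz => hbal z (hmem z hz) (hne z hz)
    have hxS : x ∉ S := hNS x (hmem x (by simp))
    have hwS : w ∉ S := hNS w (by simp)
    -- the first vertex
    have key : ∀ h' k' : V, E2 G S h' k' → (∀ y ∈ S, y ≠ h' → y ≠ k' → ∀ z ∈ (x :: A).concat w,
        ¬ G.Adj z y) → (∀ z ∈ x :: A, (G.Adj h' z ↔ G.Adj k' z)) → F2 G (insert x S) h' k' x := by
      intro h' k' hE' hadj' hb'
      by_cases hx : G.Adj h' x
      · refine (hM5 V G S h' k' x hE' hxS ?_).1
        intro y hy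
        constructor
        · intro h1
          by_contra hc
          push Not at hc
          exact hadj' y hy hc.1 hc.2 x (hmem x (by simp)) h1
        · rintro (rfl | rfl)
          · exact hx.symm
          · exact ((hb' x (by simp)).1 hx).symm
      · refine hM4 V G S h' k' x hE' hxS ?_
        intro y hy h1
        by_cases hyh : y = h'
        · subst hyh; exact hx h1.symm
        · by_cases hyk : y = k'
          · subst hyk; exact hx ((hb' x (by simp)).2 h1.symm)
          · exact hadj' y hy hyh hyk x (hmem x (by simp)) h1
    obtain ⟨v, hv⟩ : ∃ v, (x :: A).getLast? = some v := ⟨_, List.getLast?_eq_getLast_of_ne_nil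
      (List.cons_ne_nil x A)⟩
    have hvmem : v ∈ x :: A := List.mem_of_getLast? hv
    have run : ∀ h' k' : V, E2 G S h' k' → (∀ y ∈ S, y ≠ h' → y ≠ k' → ∀ z ∈ (x :: A).concat w,
        ¬ G.Adj z y) → (∀ z ∈ x :: A, (G.Adj h' z ↔ G.Adj k' z)) →
        F2 G (insert x S ∪ LS A) (if Even (rungs G h' k' A) then h' else k')
          (if Even (rungs G h' k' A) then k' else h') v := by
      intro h' k' hE' hadj' hb'
      refine hRUN V G (insert x S) h' k' x v A (key h' k' hE' hadj' hb') hIA ?_ ?_ ?_ hv
      · intro z hz hz'
        rcases hz' with rfl | hz'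
        · exact (hIA.1 z hz) rfl
        · exact hNS z (hmem z (by simp [hz])) hz'
      · intro z hz
        exact hb' z (by simp [hz])
      · intro z hz y hy h1 h2 h3 h4
        rcases hy with rfl | hy
        · exact h3 rfl
        · exact hadj' y hy h1 h2 z (hmem z (by simp [hz])) h4
    -- the last vertex
    have fin : ∀ p q : V, p ∈ S → (∀ y ∈ S, y ≠ p → y ≠ q → ¬ G.Adj w y) →
        F2 G (insert x S ∪ LS A) p q v → G.Adj p w → ¬ G.Adj q w →
        CE G (S ∪ LS ((x :: A).concat w)) := by
      intro p q hp hpq hF hpw hqw
      have hset : S ∪ LS ((x :: A).concat w) = insert w (insert x S ∪ LS A) := by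
        ext y
        simp only [LS, Set.mem_union, Set.mem_ofPred_eq, List.concat_eq_append, List.mem_append,
          List.mem_cons, Set.mem_insert_iff, List.not_mem_nil, or_false]
        tauto
      rw [hset]
      refine hM3 V G (insert x S ∪ LS A) p q v w hF ?_ ?_
      · rintro ((hh | hh) | hh)
        · exact (hL x (by simp)).1 hh
        · exact hwS hh
        · exact (hL w (by simp [show w ∈ A from hh])).1 rfl
      · have hin : ∀ y ∈ x :: A, (G.Adj w y ↔ (y = v ∨ y = p)) := by
          intro y hy
          rw [(hL y hy).2, hv]
          constructor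
          · intro hh
            have : v = y := by simpa using hh
            exact Or.inl this.symm
          · rintro (rfl | rfl)
            · rfl
            · exact absurd hp (hNS y (hmem y hy))
        intro y hy
        rcases hy with (rfl | hy) | hy
        · exact hin y (by simp)
        · constructor
          · intro h1
            by_contra hc
            push Not at hc
            by_cases hyq : y = q
            · subst hyq; exact hqw h1.symm
            · exact hpq y hy hc.2 hyq h1
          · rintro (rfl | rfl)
            · exact absurd hy (hNS y (hmem y hvmem))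
            · exact hpw.symm
        · exact hin y (by simp [show y ∈ A from hy])
    have hF1 := run h k hE (fun y hy h1 h2 z hz => hadj z hz y hy h1 h2) hb
    have hF2 := run k h hEs (fun y hy h1 h2 z hz => hadj z hz y hy h2 h1)
      (fun z hz => (hb z hz).symm)
    rw [rp_rungs G h k A] at hF2
    have hww : ∀ y ∈ S, y ≠ h → y ≠ k → ¬ G.Adj w y := fun y hy h1 h2 =>
      hadj w (by simp) y hy h1 h2
    by_cases hhw : G.Adj h w
    · have hkw : ¬ G.Adj k w := hw.1 hhw
      by_cases hev : Even (rungs G h k A)
      · rw [if_pos hev, if_pos hev] at hF1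
        exact fin h k hhS hww hF1 hhw hkw
      · rw [if_neg hev, if_neg hev] at hF2
        exact fin h k hhS hww hF2 hhw hkw
    · have hkw : G.Adj k w := by
        by_contra hc
        exact hhw (hw.2 hc)
      by_cases hev : Even (rungs G h k A)
      · rw [if_pos hev, if_pos hev] at hF2
        exact fin k h hkS (fun y hy h1 h2 => hww y hy h2 h1) hF2 hkw hhw
      · rw [if_neg hev, if_neg hev] at hF1
        exact fin k h hkS (fun y hy h1 h2 => hww y hy h2 h1) hF1 hkw hhw

end Pool.Agent.Helper24.FF
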