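import Pool.Agent.Helper24.FF.Stmts

/-! Full list for MP_866009_co, part F, module LBL: interior vertices of ladders with three rungs
are not pure. -/

set_option autoImplicit false

namespace Pool.Agent.Helper24.FF

open Pool.Agent.Helper64.CT Pool.Agent.Helper64.DT Pool.Agent.Helper64.FL
open Pool.Agent.Helper64.HG (Ovl Model Circ IC HellyCircle ChordModel)

/-- a part of the path with pure ends and two rungs that misses a vertex -/
theorem lbl_part (hW1 : ST_W1) (hNNS : ST_NNS) {V : Type} {G : SimpleGraph V} {c h k z : V}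
    {P : List V} (hR : Red G) (hI : IPt G P) (hch : G.Adj c h) (hck : G.Adj c k) (hhk : h ≠ k)
    (hnhk : ¬ G.Adj h k) (hM : ∀ x ∈ P, x ≠ c ∧ x ≠ h ∧ x ≠ k ∧ ¬ G.Adj c x)
    (hf : ∀ x ∈ P.head?, Pure G h k x) (hl : ∀ x ∈ P.getLast?, Pure G h k x)
    (hr : ∃ r1 ∈ P, ∃ r2 ∈ P, r1 ≠ r2 ∧ G.Adj h r1 ∧ G.Adj k r1 ∧ G.Adj h r2 ∧ G.Adj k r2)
    (hz : z ≠ c ∧ z ≠ h ∧ z ≠ k) (hzP : z ∉ P) : False := by
  have hW : W1c G h k [c] P := by
    refine ⟨hhk, hnhk, by simp, ?_, hI, ?_, ?_, ?_, ?_, ?_, ?_, ?_, hf, hl, hr⟩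
    · exact ⟨by simp, by simp, by simp, trivial⟩
    · simp only [List.mem_singleton]
      exact fun hh => hch.ne hh.symm
    · simp only [List.mem_singleton]
      exact fun hh => hck.ne hh.symm
    · exact fun hh => (hM h hh).2.1 rfl
    · exact fun hh => (hM k hh).2.2.1 rfl
    · intro x hx
      have hx' : x = c := by simpa using hx
      subst hx'
      exact ⟨fun _ => by simp, fun _ => hch.symm⟩
    · intro x hx
      have hx' : x = c := by simpa using hx
      subst hx'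
      exact ⟨fun _ => by simp, fun _ => hck.symm⟩
    · intro x hx y hy
      have hx' : x = c := by simpa using hx
      subst hx'
      exact ⟨fun hh => (hM y hy).1 hh.symm, (hM y hy).2.2.2⟩
  refine hW1 V G h k [c] P hR.df hW ?_
  refine (hNNS V G {v | v ≠ z}).2 _ ?_ (hR.naj z)
  rintro y ((hy | hy) | hy) hyz
  · rcases hy with hy | hy
    · exact hz.2.1 (by rw [← hyz, hy])
    · have hy' : y = k := hy
      exact hz.2.2 (by rw [← hyz, hy'])
  · have hy' : y = c := by simpa [LS] using hy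
    exact hz.1 (by rw [← hyz, hy'])
  · exact hzP (by rw [← hyz]; exact hy)

theorem st_LBL (hW1 : ST_W1) (hNNS : ST_NNS) (hIPX : ST_IPX) : ST_LBL := by
  intro V G c h k M hR hI hch hck hhk hnhk hM hf hl hrg x hx hxh hxl hpx
  obtain ⟨M1, M2, rfl⟩ := List.append_of_mem hx
  obtain ⟨r1, m1, r2, m2, r3, m3, d12, d13, d23, a1, b1, a2, b2, a3, b3⟩ := hrg
  have hIPX1 := (hIPX V G).1
  have hM1 : M1 ≠ [] := by
    rintro rfl
    exact hxh (by simp)
  have hM2 : M2 ≠ [] := by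
    rintro rfl
    exact hxl (by simp)
  have hnr : ∀ r, G.Adj h r → G.Adj k r → r ≠ x := by
    rintro r ha hb rfl
    rcases hpx with hh | hh
    · exact hh.2 hb
    · exact hh.1 ha
  have hsp : ∀ r, r ∈ M1 ++ x :: M2 → G.Adj h r → G.Adj k r → r ∈ M1 ∨ r ∈ M2 := by
    intro r hr ha hb
    rcases List.mem_append.1 hr with hh | hh
    · exact Or.inl hh
    · rcases List.mem_cons.1 hh with hh | hh
      · exact absurd hh (hnr r ha hb)
      · exact Or.inr hh
  have hIa : IPt G ((M1 ++ [x]) ++ M2) := by simpa using hI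
  obtain ⟨hI1, -, hd1⟩ := hIPX1 (M1 ++ [x]) M2 hIa
  obtain ⟨-, hI2, hd2⟩ := hIPX1 M1 (x :: M2) hI
  -- left part
  have left : (∃ s1 ∈ M1, ∃ s2 ∈ M1, s1 ≠ s2 ∧ G.Adj h s1 ∧ G.Adj k s1 ∧ G.Adj h s2 ∧
      G.Adj k s2) → False := by
    rintro ⟨s1, n1, s2, n2, hs⟩
    obtain ⟨z, hz⟩ := List.exists_mem_of_ne_nil M2 hM2
    have hzM : z ∈ M1 ++ x :: M2 := by simp [hz]
    have hzz := hM z hzM
    refine lbl_part (P := M1 ++ [x]) (z := z) hW1 hNNS hR hI1 hch hck hhk hnhk ?_ ?_ ?_ ?_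
      ⟨hzz.1, hzz.2.1, hzz.2.2.1⟩ ?_
    · intro y hy
      apply hM y
      rcases List.mem_append.1 hy with hh | hh
      · simp [hh]
      · simp at hh
        simp [hh]
    · intro y hy
      apply hf y
      cases M1 with
      | nil => exact absurd rfl hM1
      | cons a A => simpa using hy
    · intro y hy
      have : x = y := by simpa using hy
      rw [← this]
      exact hpx
    · exact ⟨s1, by simp [n1], s2, by simp [n2], hs⟩
    · intro hzz'
      exact hd1 z hzz' z hz rfl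
  have right : (∃ s1 ∈ M2, ∃ s2 ∈ M2, s1 ≠ s2 ∧ G.Adj h s1 ∧ G.Adj k s1 ∧ G.Adj h s2 ∧
      G.Adj k s2) → False := by
    rintro ⟨s1, n1, s2, n2, hs⟩
    obtain ⟨z, hz⟩ := List.exists_mem_of_ne_nil M1 hM1
    have hzM : z ∈ M1 ++ x :: M2 := by simp [hz]
    have hzz := hM z hzM
    refine lbl_part (P := x :: M2) (z := z) hW1 hNNS hR hI2 hch hck hhk hnhk ?_ ?_ ?_ ?_
      ⟨hzz.1, hzz.2.1, hzz.2.2.1⟩ ?_
    · intro y hy
      apply hM y
      exact List.mem_append.2 (Or.inr hy)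
    · intro y hy
      have : x = y := by simpa using hy
      rw [← this]
      exact hpx
    · intro y hy
      apply hl y
      cases M2 with
      | nil => exact absurd rfl hM2
      | cons a A =>
        rw [List.getLast?_append_cons] 
        exact hy
    · exact ⟨s1, by simp [n1], s2, by simp [n2], hs⟩
    · intro hzz'
      exact hd2 z hz z hzz' rfl
  rcases hsp r1 m1 a1 b1 with u1 | u1 <;> rcases hsp r2 m2 a2 b2 with u2 | u2 <;>
    rcases hsp r3 m3 a3 b3 with u3 | u3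
  · exact left ⟨r1, u1, r2, u2, d12, a1, b1, a2, b2⟩
  · exact left ⟨r1, u1, r2, u2, d12, a1, b1, a2, b2⟩
  · exact left ⟨r1, u1, r3, u3, d13, a1, b1, a3, b3⟩
  · exact right ⟨r2, u2, r3, u3, d23, a2, b2, a3, b3⟩
  · exact left ⟨r2, u2, r3, u3, d23, a2, b2, a3, b3⟩
  · exact right ⟨r1, u1, r3, u3, d13, a1, b1, a3, b3⟩
  · exact right ⟨r1, u1, r2, u2, d12, a1, b1, a2, b2⟩
  · exact right ⟨r1, u1, r2, u2, d12, a1, b1, a2, b2⟩

end Pool.Agent.Helper24.FF
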